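import Mathlib
import Pool.Agent.H.MP_d97c10_lc.A

namespace Pool.Agent.Results.MP_d97c10_lc.FMPYes

open Pool.Agent.H.MP_d97c10_lc

universe u

/-- unimodal formulas -/
inductive Fm
  | var (p : ℕ) | neg (φ : Fm) | and (φ ψ : Fm) | box (φ : Fm)

def Sat {W : Type u} (R : W → W → Prop) (V : ℕ → Set W) : Fm → W → Prop
  | .var p, w => w ∈ V p
  | .neg φ, w => ¬ Sat R V φ w
  | .and φ ψ, w => Sat R V φ w ∧ Sat R V ψ w
  | .box φ, w => ∀ x, R w x → Sat R V φ x

/-- the logic of a frame -/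
def Log {W : Type u} (R : W → W → Prop) : Set Fm := {φ | ∀ V w, Sat R V φ w}

/-- finite model property -/
def FMP (L : Set Fm) : Prop :=
  ∀ φ ∉ L, ∃ (X : Type) (_ : Finite X) (S : X → X → Prop), L ⊆ Log S ∧ φ ∉ Log S

def bd : Fm → ℕ
  | .var p => p + 1
  | .neg φ => bd φ
  | .and φ ψ => max (bd φ) (bd ψ)
  | .box φ => bd φ

theorem morph {W : Type u} {X : Type} {R : W → W → Prop} {S : X → X → Prop} (f : W → X)
    (h1 : ∀ x y, R x y → S (f x) (f y)) (h2 : ∀ x l, S (f x) l → ∃ y, R x y ∧ f y = l)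
    (V : ℕ → Set W) (V' : ℕ → Set X) (φ : Fm) (hV : ∀ p < bd φ, ∀ x, x ∈ V p ↔ f x ∈ V' p)
    (x : W) : Sat R V φ x ↔ Sat S V' φ (f x) := by
  induction φ generalizing x with
  | var p => exact hV p (Nat.lt_succ_self p) x
  | neg φ i => exact not_congr (i hV x)
  | and φ ψ i1 i2 =>
    exact and_congr (i1 (fun p hp => hV p (lt_max_of_lt_left hp)) x)
      (i2 (fun p hp => hV p (lt_max_of_lt_right hp)) x)
  | box φ i =>
    refine ⟨fun h l hl => ?_, fun h y hy => (i hV y).2 (h _ (h1 _ _ hy))⟩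
    obtain ⟨y, hy, rfl⟩ := h2 x l hl
    exact (i hV y).1 (h y hy)

theorem both {W : Type u} [Preorder W] [WellQuasiOrderedLE W] {R : W → W → Prop}
    (r1 : ∀ x y, R x y → x ≤ y) (r2 : ∀ x y z, x ≤ y → R y z → R x z) :
    FMP (Log R) := by
  · intro φ hφ
    simp only [Log, Set.mem_ofPred_eq, not_forall] at hφ
    obtain ⟨V, w, hw⟩ := hφ
    obtain ⟨C, hC, c, g1, g2⟩ := tune r1 r2 ⊤ (Fin (bd φ) → Prop) (fun w i => w ∈ V i)
      (fun _ _ _ _ => trivial) (fun x _ h => absurd trivial h)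
    let S : Set.range c → Set.range c → Prop := fun k l => ∃ x y, c x = k ∧ c y = l ∧ R x y
    have h1 : ∀ x y, R x y → S (Set.rangeFactorization c x) (Set.rangeFactorization c y) :=
      fun x y h => ⟨x, y, rfl, rfl, h⟩
    have h2 : ∀ x l, S (Set.rangeFactorization c x) l →
        ∃ y, R x y ∧ Set.rangeFactorization c y = l := by
      rintro y l ⟨x, x', a, b, d⟩
      obtain ⟨y', e1, e2⟩ := g2 x y a x' d
      exact ⟨y', e1, Subtype.ext (e2.trans b)⟩
    refine ⟨Set.range c, inferInstance, S, fun ψ hψ V' l => ?_, fun h => hw ?_⟩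
    · obtain ⟨x, rfl⟩ := Set.rangeFactorization_surjective l
      exact (morph _ h1 h2 (fun p => Set.rangeFactorization c ⁻¹' V' p) V' ψ
        (fun _ _ _ => Iff.rfl) x).1 (hψ _ _)
    · refine (morph _ h1 h2 V (fun p => Set.rangeFactorization c '' V p) φ
        (fun p hp x => ⟨fun a => ⟨x, a, rfl⟩, ?_⟩) w).2 (h _ _)
      rintro ⟨y, a, b⟩
      exact (congrFun (g1 y x (congrArg Subtype.val b)) ⟨p, hp⟩).mp a

theorem result (k : ℕ) (α : Fin k → Ordinal.{u}) :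
    FMP (Log (fun x y : ∀ i, Set.Iio (α i) => ∀ i, x i ≤ y i)) ∧
      FMP (Log (fun x y : ∀ i, Set.Iio (α i) => ∀ i, x i < y i)) :=
  ⟨both (R := fun x y : ∀ i, Set.Iio (α i) => ∀ i, x i ≤ y i) (fun _ _ h => h)
    (fun _ _ _ h h' i => (h i).trans (h' i)),
   both (R := fun x y : ∀ i, Set.Iio (α i) => ∀ i, x i < y i) (fun _ _ h i => (h i).le)
    (fun _ _ _ h h' i => (h i).trans_lt (h' i))⟩

end Pool.Agent.Results.MP_d97c10_lc.FMPYes
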