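import Mathlib
import Pool.Agent.H.MP_d97c10_lc.A

namespace Pool.Agent.Results.MP_d97c10_lc.Yes

open Pool.Agent.H.MP_d97c10_lc

universe u

def dia {W : Type u} (R : W → W → Prop) (X : Set W) : Set W := {w | ∃ v ∈ X, R w v}

/-- subalgebra of the modal algebra of the frame -/
def IsSub {W : Type u} (R : W → W → Prop) (B : Set (Set W)) : Prop :=
  ∅ ∈ B ∧ (∀ X ∈ B, Xᶜ ∈ B) ∧ (∀ X ∈ B, ∀ Y ∈ B, X ∪ Y ∈ B) ∧ ∀ X ∈ B, dia R X ∈ B

/-- every finitely generated subalgebra is finite -/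
def LocFin {W : Type u} (R : W → W → Prop) : Prop :=
  ∀ S : Set (Set W), S.Finite → (⋂₀ {B | IsSub R B ∧ S ⊆ B}).Finite

theorem both {W : Type u} [Preorder W] [WellQuasiOrderedLE W] {R : W → W → Prop}
    (r1 : ∀ x y, R x y → x ≤ y) (r2 : ∀ x y z, x ≤ y → R y z → R x z) :
    LocFin R := by
  · intro S hS
    obtain ⟨n, e, he⟩ := hS.fin_param
    obtain ⟨C, hC, c, g1, g2⟩ := tune r1 r2 ⊤ (Fin n → Prop) (fun w i => w ∈ e i)
      (fun _ _ _ _ => trivial) (fun x _ h => absurd trivial h)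
    refine (Set.finite_range (fun T : Set C => c ⁻¹' T)).subset (Set.sInter_subset_of_mem
      ⟨⟨⟨∅, rfl⟩, ?_, ?_, ?_⟩, ?_⟩)
    · rintro _ ⟨T, rfl⟩
      exact ⟨Tᶜ, rfl⟩
    · rintro _ ⟨T, rfl⟩ _ ⟨T', rfl⟩
      exact ⟨T ∪ T', rfl⟩
    · rintro _ ⟨T, rfl⟩
      refine ⟨c '' dia R (c ⁻¹' T), Set.Subset.antisymm ?_ (Set.subset_preimage_image _ _)⟩
      rintro y ⟨x, ⟨x', a, b⟩, d⟩
      obtain ⟨y', e1, e2⟩ := g2 x y d x' b
      exact ⟨y', show c y' ∈ T from e2 ▸ a, e1⟩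
    · intro X hX
      rw [← he.2] at hX
      obtain ⟨i, rfl⟩ := hX
      refine ⟨c '' e i, Set.Subset.antisymm ?_ (Set.subset_preimage_image _ _)⟩
      rintro y ⟨x, a, d⟩
      exact (congrFun (g1 x y d) i).mp a

theorem result (k : ℕ) (α : Fin k → Ordinal.{u}) :
    LocFin (fun x y : ∀ i, Set.Iio (α i) => ∀ i, x i ≤ y i) ∧
      LocFin (fun x y : ∀ i, Set.Iio (α i) => ∀ i, x i < y i) :=
  ⟨both (R := fun x y : ∀ i, Set.Iio (α i) => ∀ i, x i ≤ y i) (fun _ _ h => h)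
    (fun _ _ _ h h' i => (h i).trans (h' i)),
   both (R := fun x y : ∀ i, Set.Iio (α i) => ∀ i, x i < y i) (fun _ _ h i => (h i).le)
    (fun _ _ _ h h' i => (h i).trans_lt (h' i))⟩

end Pool.Agent.Results.MP_d97c10_lc.Yes
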